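import Pool.Agent.TH625.GM.Props

set_option autoImplicit false

open Complex MeasureTheory
open UpperHalfPlane hiding I
open scoped Real MatrixGroups ModularForm

open Pool.Agent.TH625.GM

namespace Pool.Agent.TH884.J702

open Filter Asymptotics Set Topology

/-- the Bessel series -/
noncomputable def S (c : ℕ → ℂ) (t : ℝ) (δ : ℕ) (x : ℝ) : ℂ :=
  ∑' n : ℕ, c n * (n : ℂ) ^ δ * (KB t (2 * π * n * x) : ℂ)

/-- the function of the strong FE pair -/
noncomputable def G (c : ℕ → ℂ) (t : ℝ) (δ : ℕ) (q : ℝ) (x : ℝ) : ℂ :=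
  (x : ℂ) ^ δ * S c t δ (x / q)

lemma c_le {c : ℕ → ℂ} {C : ℝ} (hc : ∀ N : ℕ, ∑ n ∈ Finset.range (N + 1), ‖c n‖ ≤ C * N) (n : ℕ) :
    ‖c n‖ ≤ C * n :=
  (Finset.single_le_sum (f := fun i => ‖c i‖) (fun i _ => norm_nonneg (c i))
    (Finset.mem_range.2 (Nat.lt_succ_self n))).trans (hc n)

lemma C_nonneg {c : ℕ → ℂ} {C : ℝ} (hc : ∀ N : ℕ, ∑ n ∈ Finset.range (N + 1), ‖c n‖ ≤ C * N) :
    0 ≤ C := by
  have := (norm_nonneg _).trans (c_le hc 1)
  simpa using this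

lemma KB_cont (h : Bessel) (t : ℝ) {x : ℝ} (hx : 0 < x) : ContinuousAt (KB t) x := by
  have h1 : KBj 0 t = KB t := funext (h.zero t)
  rw [← h1]
  exact (h.deriv 0 t x hx).continuousAt

lemma term_bound (h : Bessel) {c : ℕ → ℂ} (hc0 : c 0 = 0) {C : ℝ}
    (hc : ∀ N : ℕ, ∑ n ∈ Finset.range (N + 1), ‖c n‖ ≤ C * N) (t : ℝ) (δ : ℕ) {x₀ : ℝ}
    (hx₀ : 0 < x₀) : ∃ D : ℝ, 0 ≤ D ∧ ∀ x : ℝ, x₀ ≤ x → ∀ n : ℕ,
      ‖c n * (n : ℂ) ^ δ * (KB t (2 * π * n * x) : ℂ)‖ ≤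
        D * ((n : ℝ) ^ (1 + δ) * Real.exp (-(2 * π * x) * n)) := by
  obtain ⟨C1, hC1⟩ := h.bound 0 (2 * π * x₀) (by positivity)
  have hC1' : 0 ≤ C1 := by
    have := (abs_nonneg _).trans (hC1 t (2 * π * x₀) le_rfl)
    by_contra hcon
    push Not at hcon
    have := mul_neg_of_neg_of_pos hcon (Real.exp_pos (-(2 * π * x₀)))
    linarith
  refine ⟨C * C1, mul_nonneg (C_nonneg hc) hC1', ?_⟩
  intro x hx n
  rcases Nat.eq_zero_or_pos n with rfl | hn
  · simp [hc0]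
  have hn1 : (1 : ℝ) ≤ n := by exact_mod_cast hn
  have hxp : 0 < x := hx₀.trans_le hx
  rw [norm_mul, norm_mul, norm_pow, Complex.norm_natCast, Complex.norm_real, Real.norm_eq_abs]
  have h1 : |KB t (2 * π * n * x)| ≤ C1 * Real.exp (-(2 * π * x) * n) := by
    have h2 := hC1 t (2 * π * n * x) (by
      calc 2 * π * x₀ = 2 * π * 1 * x₀ := by ring
        _ ≤ 2 * π * n * x := by gcongr)
    rw [h.zero] at h2
    refine h2.trans (le_of_eq ?_)
    congr 2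
    ring
  calc ‖c n‖ * (n : ℝ) ^ δ * |KB t (2 * π * n * x)|
      ≤ (C * n) * (n : ℝ) ^ δ * (C1 * Real.exp (-(2 * π * x) * n)) := by
        gcongr
        · exact mul_nonneg (mul_nonneg (C_nonneg hc) (by positivity)) (by positivity)
        · exact c_le hc n
    _ = C * C1 * ((n : ℝ) ^ (1 + δ) * Real.exp (-(2 * π * x) * n)) := by
        rw [pow_add, pow_one]; ring

lemma S_cont (h : Bessel) {c : ℕ → ℂ} (hc0 : c 0 = 0) {C : ℝ}
    (hc : ∀ N : ℕ, ∑ n ∈ Finset.range (N + 1), ‖c n‖ ≤ C * N) (t : ℝ) (δ : ℕ) {x : ℝ}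
    (hx : 0 < x) : ContinuousAt (S c t δ) x := by
  obtain ⟨D, hD, hb⟩ := term_bound h hc0 hc t δ (half_pos hx)
  have h1 : ContinuousOn (S c t δ) (Ioi (x / 2)) := by
    unfold S
    refine continuousOn_tsum (u := fun n : ℕ =>
      D * ((n : ℝ) ^ (1 + δ) * Real.exp (-(2 * π * (x / 2)) * n))) ?_ ?_ ?_
    · intro n
      rcases Nat.eq_zero_or_pos n with rfl | hn
      · simp only [hc0, zero_mul]
        exact continuousOn_const
      · intro y hy
        have hy0 : 0 < y := (half_pos hx).trans hy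
        have hn' : (0 : ℝ) < n := by exact_mod_cast hn
        have h2 : ContinuousAt (fun y : ℝ => KB t (2 * π * n * y)) y :=
          ContinuousAt.comp (f := fun y : ℝ => 2 * π * n * y) (g := KB t)
            (KB_cont h t (by positivity)) (by fun_prop)
        exact (continuousAt_const.mul
          (Complex.continuous_ofReal.continuousAt.comp h2)).continuousWithinAt
    · exact (Real.summable_pow_mul_exp_neg_nat_mul (1 + δ) (by positivity)).mul_left D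
    · intro n y hy
      refine (hb y (le_of_lt hy) n).trans ?_
      have : x / 2 ≤ y := le_of_lt hy
      gcongr
  exact h1.continuousAt (Ioi_mem_nhds (half_lt_self hx))

lemma S_bound (h : Bessel) {c : ℕ → ℂ} (hc0 : c 0 = 0) {C : ℝ}
    (hc : ∀ N : ℕ, ∑ n ∈ Finset.range (N + 1), ‖c n‖ ≤ C * N) (t : ℝ) (δ : ℕ) :
    ∃ D : ℝ, 0 ≤ D ∧ ∀ x : ℝ, 1 ≤ x → ‖S c t δ x‖ ≤ D * Real.exp (-π * x) := by
  obtain ⟨D, hD, hb⟩ := term_bound h hc0 hc t δ (one_pos)
  have hs : Summable fun n : ℕ => (n : ℝ) ^ (1 + δ) * Real.exp (-π * n) :=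
    Real.summable_pow_mul_exp_neg_nat_mul (1 + δ) Real.pi_pos
  refine ⟨D * ∑' n : ℕ, ((n : ℝ) ^ (1 + δ) * Real.exp (-π * n)), ?_, ?_⟩
  · exact mul_nonneg hD (tsum_nonneg fun n => by positivity)
  intro x hx
  have h2 : HasSum (fun n : ℕ => (D * ((n : ℝ) ^ (1 + δ) * Real.exp (-π * n))) *
      Real.exp (-π * x)) (D * (∑' n : ℕ, ((n : ℝ) ^ (1 + δ) * Real.exp (-π * n))) *
      Real.exp (-π * x)) := (hs.hasSum.mul_left D).mul_right _
  refine tsum_of_norm_bounded h2 ?_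
  intro n
  refine (hb x hx n).trans ?_
  rcases Nat.eq_zero_or_pos n with rfl | hn
  · simp
  have hn1 : (1 : ℝ) ≤ n := by exact_mod_cast hn
  rw [mul_assoc D, mul_assoc ((n : ℝ) ^ (1 + δ)), ← Real.exp_add]
  gcongr
  have h3 : (n : ℝ) ≤ x * n := by nlinarith
  have h4 : x ≤ x * n := by nlinarith
  nlinarith [Real.pi_pos, mul_le_mul_of_nonneg_left h3 Real.pi_pos.le,
    mul_le_mul_of_nonneg_left h4 Real.pi_pos.le]

lemma G_top (h : Bessel) {c : ℕ → ℂ} (hc0 : c 0 = 0) {C : ℝ}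
    (hc : ∀ N : ℕ, ∑ n ∈ Finset.range (N + 1), ‖c n‖ ≤ C * N) (t : ℝ) (δ : ℕ) {q : ℝ}
    (hq : 0 < q) (r : ℝ) : G c t δ q =O[atTop] (fun x : ℝ => x ^ r) := by
  obtain ⟨D, hD, hb⟩ := S_bound h hc0 hc t δ
  have h1 : (fun x : ℝ => Real.exp (-(π / q) * x)) =O[atTop] (fun x : ℝ => x ^ (r - δ)) :=
    (isLittleO_exp_neg_mul_rpow_atTop (by positivity) _).isBigO
  have h2 : G c t δ q =O[atTop] (fun x : ℝ => x ^ (δ : ℝ) * Real.exp (-(π / q) * x)) := by
    refine IsBigO.of_bound D ?_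
    filter_upwards [eventually_ge_atTop q, eventually_gt_atTop 0] with x hx hx0
    have hxq : 1 ≤ x / q := by rwa [one_le_div hq]
    unfold G
    rw [norm_mul, norm_pow, Complex.norm_real, Real.norm_eq_abs, abs_of_pos hx0, Real.norm_eq_abs,
      abs_of_nonneg (by positivity), Real.rpow_natCast]
    calc x ^ δ * ‖S c t δ (x / q)‖ ≤ x ^ δ * (D * Real.exp (-π * (x / q))) := by
          gcongr
          exact hb _ hxq
      _ = D * (x ^ δ * Real.exp (-(π / q) * x)) := by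
          rw [show -π * (x / q) = -(π / q) * x by ring]
          ring
  have h3 : (fun x : ℝ => x ^ (δ : ℝ) * Real.exp (-(π / q) * x)) =O[atTop]
      (fun x : ℝ => x ^ (δ : ℝ) * x ^ (r - δ)) := (isBigO_refl _ _).mul h1
  refine (h2.trans h3).congr' (EventuallyEq.refl _ _) ?_
  filter_upwards [eventually_gt_atTop 0] with x hx
  rw [← Real.rpow_add hx]
  congr 1
  ring

lemma G_cont (h : Bessel) {c : ℕ → ℂ} (hc0 : c 0 = 0) {C : ℝ}
    (hc : ∀ N : ℕ, ∑ n ∈ Finset.range (N + 1), ‖c n‖ ≤ C * N) (t : ℝ) (δ : ℕ) {q : ℝ}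
    (hq : 0 < q) : ContinuousOn (G c t δ q) (Ioi 0) := by
  intro x hx
  have hx0 : 0 < x := hx
  have h1 : ContinuousAt (fun y : ℝ => S c t δ (y / q)) x :=
    ContinuousAt.comp (f := fun y : ℝ => y / q) (g := S c t δ)
      (S_cont h hc0 hc t δ (by positivity)) (by fun_prop)
  exact (ContinuousAt.mul (by fun_prop) h1).continuousWithinAt

lemma G_feq {c : ℕ → ℂ} {t : ℝ} {δ : ℕ} {q : ℝ} (hq : 0 < q)
    (hfe : ∀ x : ℝ, 0 < x →
      ∑' n : ℕ, c n * (n : ℂ) ^ δ * (KB t (2 * π * n * (1 / (q ^ 2 * x))) : ℂ) =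
        -((q * x) ^ (2 * δ + 1) : ℝ) * ∑' n : ℕ, c n * (n : ℂ) ^ δ * (KB t (2 * π * n * x) : ℂ))
    (x : ℝ) (hx : 0 < x) :
    G c t δ q (1 / x) = ((-1 : ℂ) * ((x ^ (1 : ℝ) : ℝ) : ℂ)) • G c t δ q x := by
  have h1 := hfe (x / q) (by positivity)
  have h2 : 1 / (q ^ 2 * (x / q)) = 1 / x / q := by field_simp
  have h3 : q * (x / q) = x := by field_simp
  rw [h2, h3] at h1
  unfold G S
  rw [h1, Real.rpow_one, smul_eq_mul]
  have hx' : (x : ℂ) ≠ 0 := by exact_mod_cast hx.ne'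
  generalize ∑' n : ℕ, c n * (n : ℂ) ^ δ * (KB t (2 * π * n * (x / q)) : ℂ) = T
  push_cast
  rw [one_div, inv_pow]
  field_simp
  ring

/-- the FE pair -/
noncomputable def P (h : Bessel) {c : ℕ → ℂ} (hc0 : c 0 = 0) {C : ℝ}
    (hc : ∀ N : ℕ, ∑ n ∈ Finset.range (N + 1), ‖c n‖ ≤ C * N) (t : ℝ) (δ : ℕ) {q : ℝ}
    (hq : 0 < q)
    (hfe : ∀ x : ℝ, 0 < x →
      ∑' n : ℕ, c n * (n : ℂ) ^ δ * (KB t (2 * π * n * (1 / (q ^ 2 * x))) : ℂ) =
        -((q * x) ^ (2 * δ + 1) : ℝ) * ∑' n : ℕ, c n * (n : ℂ) ^ δ * (KB t (2 * π * n * x) : ℂ)) :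
    WeakFEPair ℂ where
  f := G c t δ q
  g := G c t δ q
  k := 1
  ε := -1
  f₀ := 0
  g₀ := 0
  hf_int := (G_cont h hc0 hc t δ hq).locallyIntegrableOn measurableSet_Ioi
  hg_int := (G_cont h hc0 hc t δ hq).locallyIntegrableOn measurableSet_Ioi
  hk := one_pos
  hε := by norm_num
  h_feq := fun x hx => G_feq hq hfe x hx
  hf_top := fun r => by simpa using G_top h hc0 hc t δ hq r
  hg_top := fun r => by simpa using G_top h hc0 hc t δ hq r

lemma LSer_summable {c : ℕ → ℂ} {C : ℝ}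
    (hc : ∀ N : ℕ, ∑ n ∈ Finset.range (N + 1), ‖c n‖ ≤ C * N) {s : ℂ} (hs : 1 < s.re) :
    LSeriesSummable c s := by
  refine LSeriesSummable_of_sum_norm_bigO (r := 1) ?_ zero_le_one hs
  refine IsBigO.of_bound C (Eventually.of_forall fun n => ?_)
  rw [Real.rpow_one, Real.norm_of_nonneg (Finset.sum_nonneg fun _ _ => norm_nonneg _),
    Real.norm_of_nonneg (Nat.cast_nonneg n)]
  refine le_trans ?_ (hc n)
  apply Finset.sum_le_sum_of_subset_of_nonneg
  · intro k hk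
    rw [Finset.mem_Icc] at hk
    rw [Finset.mem_range]
    omega
  · intro _ _ _
    exact norm_nonneg _

lemma mellin_S (hM : BesselMellin) {c : ℕ → ℂ} (hc0 : c 0 = 0) {C : ℝ}
    (hc : ∀ N : ℕ, ∑ n ∈ Finset.range (N + 1), ‖c n‖ ≤ C * N) (t : ℝ) (δ : ℕ) {s : ℂ}
    (hs : 1 < s.re) :
    mellin (S c t δ) (s + δ) =
      (2 * π : ℂ) ^ (-(s + δ)) * mellin (fun x => (KB t x : ℂ)) (s + δ) * LSeries c s := by
  set w : ℂ := s + δ with hw
  have hwre : w.re = s.re + δ := by simp [hw]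
  have hwpos : 0 < w.re := by
    rw [hwre]
    have : (0 : ℝ) ≤ δ := Nat.cast_nonneg _
    linarith
  obtain ⟨hconv, -⟩ := hM t w hwpos
  set M := mellin (fun x => (KB t x : ℂ)) w with hMdef
  have hconvn : ∀ n : ℕ, 0 < n →
      MellinConvergent (fun x => (KB t (2 * π * n * x) : ℂ)) w := by
    intro n hn
    have hn' : (0 : ℝ) < n := by exact_mod_cast hn
    exact (MellinConvergent.comp_mul_left (f := fun x => (KB t x : ℂ)) (s := w)
      (a := 2 * π * n) (by positivity)).2 hconv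
  have hLS := LSer_summable hc hs
  have key : ∀ n : ℕ, 0 < n → ((2 * π * n : ℝ) : ℂ) ^ (-w) * (n : ℂ) ^ δ =
      (2 * π : ℂ) ^ (-w) * (n : ℂ) ^ (-s) := by
    intro n hn
    have hn' : (n : ℂ) ≠ 0 := by exact_mod_cast hn.ne'
    have h1 : ((2 * π * n : ℝ) : ℂ) ^ (-w) = (2 * π : ℂ) ^ (-w) * (n : ℂ) ^ (-w) := by
      rw [Complex.ofReal_mul, Complex.mul_cpow_ofReal_nonneg (by positivity) (by positivity)]
      push_cast
      rfl
    rw [h1, mul_assoc]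
    congr 1
    rw [← Complex.cpow_natCast (n : ℂ) δ, ← Complex.cpow_add _ _ hn', hw]
    congr 1
    ring
  have hint : ∀ n : ℕ, Integrable (fun x : ℝ => (x : ℂ) ^ (w - 1) •
      (c n * (n : ℂ) ^ δ * (KB t (2 * π * n * x) : ℂ))) (volume.restrict (Ioi 0)) := by
    intro n
    rcases Nat.eq_zero_or_pos n with rfl | hn
    · simp [hc0]
    · have := (hconvn n hn).const_smul (c n * (n : ℂ) ^ δ)
      simpa only [MellinConvergent, IntegrableOn, smul_eq_mul] using this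
  have hnorm : ∀ n : ℕ, ∫ x : ℝ in Ioi 0, ‖(x : ℂ) ^ (w - 1) •
      (c n * (n : ℂ) ^ δ * (KB t (2 * π * n * x) : ℂ))‖ =
      ‖LSeries.term c s n‖ * ((2 * π) ^ (-w.re) *
        ∫ x : ℝ in Ioi 0, ‖(x : ℂ) ^ (w - 1) • (KB t x : ℂ)‖) := by
    intro n
    rcases Nat.eq_zero_or_pos n with rfl | hn
    · simp [hc0]
    have hn' : (0 : ℝ) < n := by exact_mod_cast hn
    have ha : (0 : ℝ) < 2 * π * n := by positivity
    have e1 : ∀ x ∈ Ioi (0 : ℝ), ‖(x : ℂ) ^ (w - 1) •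
        (c n * (n : ℂ) ^ δ * (KB t (2 * π * n * x) : ℂ))‖ =
        (‖c n‖ * (n : ℝ) ^ δ * (2 * π * n) ^ (-(w.re - 1))) *
          (fun y : ℝ => ‖(y : ℂ) ^ (w - 1) • (KB t y : ℂ)‖) (2 * π * n * x) := by
      intro x hx
      have hx0 : 0 < x := hx
      simp only [norm_smul, norm_mul, norm_pow, Complex.norm_natCast]
      rw [Complex.norm_cpow_eq_rpow_re_of_pos hx0,
        Complex.norm_cpow_eq_rpow_re_of_pos (by positivity : (0 : ℝ) < 2 * π * n * x)]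
      simp only [sub_re, one_re]
      rw [Real.mul_rpow ha.le hx0.le, Real.rpow_neg ha.le]
      have : (2 * π * (n : ℝ)) ^ (w.re - 1) ≠ 0 := (Real.rpow_pos_of_pos ha _).ne'
      field_simp
    rw [setIntegral_congr_fun measurableSet_Ioi e1, integral_const_mul,
      integral_comp_mul_left_Ioi (fun y : ℝ => ‖(y : ℂ) ^ (w - 1) • (KB t y : ℂ)‖) 0 ha, mul_zero,
      smul_eq_mul]
    have e2 : ‖LSeries.term c s n‖ = ‖c n‖ * (n : ℝ) ^ (-s.re) := by
      rw [LSeries.term_def₀ hc0, norm_mul, Complex.norm_natCast_cpow_of_pos hn, neg_re]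
    rw [e2]
    have e3 : (2 * π * (n : ℝ)) ^ (-(w.re - 1)) * (2 * π * n)⁻¹ * (n : ℝ) ^ δ =
        (2 * π) ^ (-w.re) * (n : ℝ) ^ (-s.re) := by
      rw [← Real.rpow_neg_one (2 * π * (n : ℝ)), ← Real.rpow_add ha,
        show -(w.re - 1) + -1 = -w.re by ring, Real.mul_rpow (by positivity) hn'.le, mul_assoc]
      congr 1
      rw [← Real.rpow_natCast, ← Real.rpow_add hn', hwre]
      congr 1
      ring
    calc ‖c n‖ * (n : ℝ) ^ δ * (2 * π * n) ^ (-(w.re - 1)) *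
          ((2 * π * n)⁻¹ * ∫ x : ℝ in Ioi 0, ‖(x : ℂ) ^ (w - 1) • (KB t x : ℂ)‖)
        = ‖c n‖ * ((2 * π * (n : ℝ)) ^ (-(w.re - 1)) * (2 * π * n)⁻¹ * (n : ℝ) ^ δ) *
          ∫ x : ℝ in Ioi 0, ‖(x : ℂ) ^ (w - 1) • (KB t x : ℂ)‖ := by ring
      _ = _ := by rw [e3]; ring
  have hsum : Summable fun n : ℕ => ∫ x : ℝ in Ioi 0, ‖(x : ℂ) ^ (w - 1) •
      (c n * (n : ℂ) ^ δ * (KB t (2 * π * n * x) : ℂ))‖ := by
    simp_rw [hnorm]
    exact (summable_norm_iff.2 hLS).mul_right _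
  have hH := hasSum_integral_of_summable_integral_norm hint hsum
  have hR : mellin (S c t δ) w = ∫ x : ℝ in Ioi 0, ∑' n : ℕ, (x : ℂ) ^ (w - 1) •
      (c n * (n : ℂ) ^ δ * (KB t (2 * π * n * x) : ℂ)) := by
    unfold mellin S
    apply setIntegral_congr_fun measurableSet_Ioi
    intro x _
    simp only [smul_eq_mul]
    rw [tsum_mul_left]
  rw [hR, ← hH.tsum_eq]
  have hterm : ∀ n : ℕ, ∫ x : ℝ in Ioi 0, (x : ℂ) ^ (w - 1) •
      (c n * (n : ℂ) ^ δ * (KB t (2 * π * n * x) : ℂ)) =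
      ((2 * π : ℂ) ^ (-w) * M) * LSeries.term c s n := by
    intro n
    rcases Nat.eq_zero_or_pos n with rfl | hn
    · simp [hc0]
    have hn' : (0 : ℝ) < n := by exact_mod_cast hn
    have h1 := mellin_const_smul (fun x : ℝ => (KB t (2 * π * n * x) : ℂ)) w (c n * (n : ℂ) ^ δ)
    have h2 := mellin_comp_mul_left (fun x : ℝ => (KB t x : ℂ)) w
      (a := 2 * π * n) (by positivity)
    have h3 : ∫ x : ℝ in Ioi 0, (x : ℂ) ^ (w - 1) •
      (c n * (n : ℂ) ^ δ * (KB t (2 * π * n * x) : ℂ)) =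
        mellin (fun x : ℝ => (c n * (n : ℂ) ^ δ) • (KB t (2 * π * n * x) : ℂ)) w := rfl
    rw [h3, h1, h2, LSeries.term_def₀ hc0, smul_eq_mul, smul_eq_mul, ← hMdef]
    calc c n * (n : ℂ) ^ δ * (((2 * π * n : ℝ) : ℂ) ^ (-w) * M)
        = c n * (((2 * π * n : ℝ) : ℂ) ^ (-w) * (n : ℂ) ^ δ) * M := by ring
      _ = _ := by rw [key n hn]; ring
  simp_rw [hterm]
  rw [tsum_mul_left]
  rfl

theorem lSer (h : Bessel) (hM : BesselMellin) : LSer := by
  intro c hc0 C hc t δ _ q hq hfe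
  set Q := P h hc0 hc t δ hq hfe with hQ
  have hQs : IsStrongFEPair Q := ⟨rfl, rfl⟩
  have hΛ : Q.Λ = mellin (G c t δ q) := hQs.Λ_eq
  have hΛ' : Q.symm.Λ = mellin (G c t δ q) := hQs.symm_Λ_eq
  have hq' : (q : ℂ) ≠ 0 := by exact_mod_cast hq.ne'
  have h2π : (2 * π : ℂ) ≠ 0 := by
    have := Real.pi_pos.ne'
    simp [this]
  have hhalf : Q.Λ (1 / 2) = 0 := by
    have h1 := Q.functional_equation (1 / 2)
    rw [hΛ', ← hΛ] at h1
    have h2 : (Q.k : ℂ) - 1 / 2 = 1 / 2 := by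
      have : Q.k = 1 := rfl
      rw [this]; norm_num
    have h3 : Q.ε = -1 := rfl
    rw [h2, h3, neg_one_smul] at h1
    have : (2 : ℂ) * Q.Λ (1 / 2) = 0 := by linear_combination h1
    simpa using this
  refine ⟨fun s => Q.Λ s * ((q : ℂ) ^ (-(s + δ)) * (2 * π : ℂ) ^ (s + δ) * 2 ^ (2 - (s + δ))) *
    ((Complex.Gamma ((s + δ + t * I) / 2))⁻¹ * (Complex.Gamma ((s + δ - t * I) / 2))⁻¹),
    ?_, ?_, ?_⟩
  · have hd : ∀ a : ℂ, Differentiable ℂ (fun s : ℂ => (Complex.Gamma ((s + δ + a) / 2))⁻¹) := by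
      intro a
      exact Complex.differentiable_one_div_Gamma.comp (by fun_prop)
    have hd1 := hd (t * I)
    have hd2 : Differentiable ℂ (fun s : ℂ => (Complex.Gamma ((s + δ - t * I) / 2))⁻¹) := by
      have := hd (-(t * I))
      simpa only [sub_eq_add_neg] using this
    have hp : ∀ (b : ℂ) (f : ℂ → ℂ), b ≠ 0 → Differentiable ℂ f →
        Differentiable ℂ (fun s => b ^ f s) := by
      intro b f hb hf s
      exact (hf s).const_cpow (Or.inl hb)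
    exact (hQs.differentiable_Λ.mul (((hp q _ hq' (by fun_prop)).mul
      (hp _ _ h2π (by fun_prop))).mul (hp 2 _ two_ne_zero (by fun_prop)))).mul (hd1.mul hd2)
  · intro s hs
    refine ⟨LSer_summable hc hs, ?_⟩
    have hδ0 : (0 : ℝ) ≤ δ := Nat.cast_nonneg _
    have hwpos : 0 < (s + δ).re := by simp; linarith
    have hG : mellin (G c t δ q) s = (q : ℂ) ^ (s + δ) * mellin (S c t δ) (s + δ) := by
      have h1 : mellin (G c t δ q) s =
          mellin (fun x : ℝ => (x : ℂ) ^ (δ : ℂ) • S c t δ (q⁻¹ * x)) s := by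
        unfold mellin G
        apply setIntegral_congr_fun measurableSet_Ioi
        intro x _
        simp only [smul_eq_mul, Complex.cpow_natCast]
        rw [div_eq_inv_mul]
      rw [h1, mellin_cpow_smul (fun x : ℝ => S c t δ (q⁻¹ * x)) s δ,
        mellin_comp_mul_left _ _ (inv_pos.2 hq), smul_eq_mul]
      congr 1
      rw [Complex.ofReal_inv, Complex.inv_cpow, Complex.cpow_neg, inv_inv]
      rw [Complex.arg_ofReal_of_nonneg hq.le]
      exact Real.pi_pos.ne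
    obtain ⟨-, hMe⟩ := hM t (s + δ) hwpos
    have hΓ1 : Complex.Gamma ((s + δ + t * I) / 2) ≠ 0 := by
      apply Complex.Gamma_ne_zero_of_re_pos
      have : ((s + δ + t * I) / 2).re = (s.re + δ) / 2 := by
        simp
      rw [this]; linarith
    have hΓ2 : Complex.Gamma ((s + δ - t * I) / 2) ≠ 0 := by
      apply Complex.Gamma_ne_zero_of_re_pos
      have : ((s + δ - t * I) / 2).re = (s.re + δ) / 2 := by
        simp
      rw [this]; linarith
    simp only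
    rw [hΛ, hG, mellin_S hM hc0 hc t δ hs, hMe, Complex.cpow_neg (q : ℂ), Complex.cpow_neg (2 * π : ℂ)]
    have hq2 : (q : ℂ) ^ (s + δ) ≠ 0 := by simp [Complex.cpow_eq_zero_iff, hq']
    have hp2 : (2 * π : ℂ) ^ (s + δ) ≠ 0 := by
      rw [Ne, Complex.cpow_eq_zero_iff]
      exact fun hh => h2π hh.1
    have h22 : (2 : ℂ) ^ (s + δ - 2) * 2 ^ (2 - (s + δ)) = 1 := by
      rw [← Complex.cpow_add _ _ two_ne_zero]
      simp
    field_simp
    linear_combination (-(LSeries c s)) * h22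
  · simp only
    rw [hhalf]
    simp

end Pool.Agent.TH884.J702

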